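import Mathlib

/-! A majorant all of whose snake polynomials of degree at least four have a negative
Chebyshev coefficient. -/

open Polynomial Set Real

namespace Y219.SN

noncomputable section

/-- the square of the majorant -/
def Q (x : ℝ) : ℝ := 808201 / 1000000 + 1039 / 2500 * x ^ 2 - 2 / 125 * x ^ 4

/-- the majorant -/
def M (x : ℝ) : ℝ := √(Q x)

theorem Q_pos {x : ℝ} (hx : |x| ≤ 1) : 0 < Q x := by
  have h1 : x ^ 2 ≤ 1 := by rw [sq_le_one_iff_abs_le_one]; exact hx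
  have h0 : 0 ≤ x ^ 2 := sq_nonneg x
  unfold Q
  have h4 : x ^ 4 = (x ^ 2) ^ 2 := by ring
  rw [h4]
  nlinarith

theorem M_pos {x : ℝ} (hx : |x| ≤ 1) : 0 < M x := Real.sqrt_pos.mpr (Q_pos hx)

theorem M_even (x : ℝ) : M (-x) = M x := by
  unfold M Q
  congr 1
  ring

theorem M_cont : Continuous M := by
  unfold M Q
  fun_prop

/-- support lines of `√Q` -/
theorem support {z x : ℝ} (hz : |z| ≤ 1) (hx : |x| ≤ 1) :
    2 * Q z + (2 * (1039 / 2500) * z - 4 * (2 / 125) * z ^ 3) * (x - z) ≤ 2 * (M x * M z) := by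
  have hQx := Q_pos hx
  have hQz := Q_pos hz
  have e : M x * M z = √(Q x * Q z) := by
    unfold M
    rw [Real.sqrt_mul hQx.le]
  have e2 : 2 * (M x * M z) = √(4 * (Q x * Q z)) := by
    rw [e, Real.sqrt_mul (by norm_num : (0 : ℝ) ≤ 4)]
    congr 1
    rw [show (4 : ℝ) = 2 ^ 2 by norm_num, Real.sqrt_sq (by norm_num)]
  rw [e2]
  apply Real.le_sqrt_of_sq_le
  -- polynomial inequality
  have hz1 : z ^ 2 ≤ 1 := by rw [sq_le_one_iff_abs_le_one]; exact hz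
  have hx1 : x ^ 2 ≤ 1 := by rw [sq_le_one_iff_abs_le_one]; exact hx
  have hz0 : 0 ≤ z ^ 2 := sq_nonneg z
  have hxz : x * z ≤ 1 := by nlinarith [sq_nonneg (x - z)]
  have hs : x ^ 2 + 2 * (x * z) + 3 * z ^ 2 ≤ 6 := by nlinarith
  have key : 4 * (Q x * Q z) - (2 * Q z + (2 * (1039 / 2500) * z - 4 * (2 / 125) * z ^ 3) *
      (x - z)) ^ 2 = (x - z) ^ 2 * (4 * Q z * (1039 / 2500 - 2 / 125 *
        (x ^ 2 + 2 * (x * z) + 3 * z ^ 2)) -
        (2 * (1039 / 2500) * z - 4 * (2 / 125) * z ^ 3) ^ 2) := by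
    unfold Q
    ring
  have h2 : 0 ≤ 4 * Q z * (1039 / 2500 - 2 / 125 * (x ^ 2 + 2 * (x * z) + 3 * z ^ 2)) -
        (2 * (1039 / 2500) * z - 4 * (2 / 125) * z ^ 3) ^ 2 := by
    have h3 : 4 * Q z * (1039 / 2500 - 2 / 125 * 6) ≤
        4 * Q z * (1039 / 2500 - 2 / 125 * (x ^ 2 + 2 * (x * z) + 3 * z ^ 2)) := by
      apply mul_le_mul_of_nonneg_left _ (by linarith)
      linarith
    have h4 : 0 ≤ 4 * Q z * (1039 / 2500 - 2 / 125 * 6) -
        (2 * (1039 / 2500) * z - 4 * (2 / 125) * z ^ 3) ^ 2 := by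
      unfold Q
      obtain ⟨t, ht⟩ : ∃ t, t = z ^ 2 := ⟨_, rfl⟩
      have e3 : (2 * (1039 / 2500) * z - 4 * (2 / 125) * z ^ 3) ^ 2 =
          t * (2 * (1039 / 2500) - 4 * (2 / 125) * t) ^ 2 := by
        rw [ht]; ring
      have e4 : z ^ 4 = t ^ 2 := by rw [ht]; ring
      rw [e3, e4, ← ht]
      rw [← ht] at hz1 hz0
      nlinarith [mul_nonneg hz0 (sub_nonneg.mpr hz1), mul_nonneg (mul_nonneg hz0 hz0) (sub_nonneg.mpr hz1)]
    linarith
  have h5 := mul_nonneg (sq_nonneg (x - z)) h2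
  linarith

theorem M_convex : ConvexOn ℝ (Icc (-1) 1) M := by
  refine ⟨convex_Icc _ _, ?_⟩
  intro x hx y hy a b ha hb hab
  have hx' : |x| ≤ 1 := abs_le.mpr hx
  have hy' : |y| ≤ 1 := abs_le.mpr hy
  have hzI : a • x + b • y ∈ Icc (-1 : ℝ) 1 := (convex_Icc (-1 : ℝ) 1) hx hy ha hb hab
  obtain ⟨z, hz⟩ : ∃ z, z = a • x + b • y := ⟨_, rfl⟩
  rw [← hz] at hzI ⊢
  have hz' : |z| ≤ 1 := abs_le.mpr hzI
  have h1 := support hz' hx'
  have h2 := support hz' hy'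
  have hM := M_pos hz'
  have hsq : M z * M z = Q z := Real.mul_self_sqrt (Q_pos hz').le
  have hz2 : z = a * x + b * y := hz
  have h3 : 2 * Q z ≤ 2 * ((a * M x + b * M y) * M z) := by
    have h4 := add_le_add (mul_le_mul_of_nonneg_left h1 ha) (mul_le_mul_of_nonneg_left h2 hb)
    have e1 : a * (2 * Q z + (2 * (1039 / 2500) * z - 4 * (2 / 125) * z ^ 3) * (x - z)) +
        b * (2 * Q z + (2 * (1039 / 2500) * z - 4 * (2 / 125) * z ^ 3) * (y - z)) =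
        2 * Q z * (a + b) + (2 * (1039 / 2500) * z - 4 * (2 / 125) * z ^ 3) *
          (a * x + b * y - (a + b) * z) := by ring
    rw [e1, hab, ← hz2] at h4
    linarith
  show M z ≤ a * M x + b * M y
  rw [← hsq] at h3
  have h5 : M z * M z ≤ (a * M x + b * M y) * M z := by linarith
  exact le_of_mul_le_mul_right h5 hM

/-- the real and imaginary parts of `1 + a e^{-2iθ} - b e^{-4iθ}` -/
def G (θ : ℝ) : ℝ := 1 + 1 / 10 * cos (2 * θ) - 1 / 1000 * cos (4 * θ)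
def H (θ : ℝ) : ℝ := 1 / 10 * sin (2 * θ) - 1 / 1000 * sin (4 * θ)

theorem G_pos (θ : ℝ) : 0 < G θ := by
  unfold G
  have h1 := Real.neg_one_le_cos (2 * θ)
  have h2 := Real.cos_le_one (4 * θ)
  linarith

theorem GH (θ : ℝ) : G θ ^ 2 + H θ ^ 2 = Q (cos θ) := by
  have e2 : cos (2 * θ) = 2 * cos θ ^ 2 - 1 := Real.cos_two_mul θ
  have e4 : cos (4 * θ) = 2 * cos (2 * θ) ^ 2 - 1 := by
    rw [← Real.cos_two_mul]; congr 1; ring
  have s4 : sin (4 * θ) = 2 * sin (2 * θ) * cos (2 * θ) := by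
    rw [← Real.sin_two_mul]; congr 1; ring
  have hs : sin (2 * θ) ^ 2 = 1 - cos (2 * θ) ^ 2 := Real.sin_sq (2 * θ)
  unfold G H Q
  rw [s4, e4]
  have : (1 / 10 * sin (2 * θ) - 1 / 1000 * (2 * sin (2 * θ) * cos (2 * θ))) ^ 2 =
      sin (2 * θ) ^ 2 * (1 / 10 - 1 / 500 * cos (2 * θ)) ^ 2 := by ring
  rw [this, hs, e2]
  ring

/-- the phase -/
def φ (θ : ℝ) : ℝ := arctan (H θ / G θ)

theorem cos_φ (θ : ℝ) : G θ = M (cos θ) * cos (φ θ) := by
  have hG := G_pos θ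
  have hM : M (cos θ) = √(G θ ^ 2 + H θ ^ 2) := by rw [GH]; rfl
  have h1 : √(G θ ^ 2 + H θ ^ 2) = G θ * √(1 + (H θ / G θ) ^ 2) := by
    have : G θ ^ 2 + H θ ^ 2 = G θ ^ 2 * (1 + (H θ / G θ) ^ 2) := by field_simp
    rw [this, Real.sqrt_mul (sq_nonneg _), Real.sqrt_sq hG.le]
  unfold φ
  rw [hM, h1, Real.cos_arctan]
  have h2 : 0 < √(1 + (H θ / G θ) ^ 2) := Real.sqrt_pos.mpr (by positivity)
  field_simp

theorem sin_φ (θ : ℝ) : H θ = M (cos θ) * sin (φ θ) := by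
  have hG := G_pos θ
  have h := cos_φ θ
  have hc : 0 < cos (φ θ) := Real.cos_arctan_pos _
  have ht : sin (φ θ) = H θ / G θ * cos (φ θ) := by
    have := Real.tan_arctan (H θ / G θ)
    rw [Real.tan_eq_sin_div_cos] at this
    unfold φ
    field_simp at this ⊢
    linarith
  rw [ht, ← mul_assoc, mul_comm (M (cos θ)), mul_assoc, ← h]
  field_simp

/-- the snake polynomials -/
def P (n : ℕ) : ℝ[X] :=
  Chebyshev.T ℝ (n : ℤ) + C (1 / 10) * Chebyshev.T ℝ ((n : ℤ) - 2) -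
    C (1 / 1000) * Chebyshev.T ℝ ((n : ℤ) - 4)

theorem P_cos (n : ℕ) (θ : ℝ) : (P n).eval (cos θ) = M (cos θ) * cos (n * θ - φ θ) := by
  unfold P
  rw [Real.cos_sub]
  have e1 : M (cos θ) * (cos (n * θ) * cos (φ θ) + sin (n * θ) * sin (φ θ)) =
      cos (n * θ) * G θ + sin (n * θ) * H θ := by
    rw [cos_φ, sin_φ]; ring
  rw [e1]
  simp only [eval_sub, eval_add, eval_mul, eval_C, Chebyshev.T_real_cos]
  push_cast
  have e2 : cos (((n : ℝ) - 2) * θ) = cos (n * θ) * cos (2 * θ) + sin (n * θ) * sin (2 * θ) := by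
    rw [← Real.cos_sub]; congr 1; ring
  have e3 : cos (((n : ℝ) - 4) * θ) = cos (n * θ) * cos (4 * θ) + sin (n * θ) * sin (4 * θ) := by
    rw [← Real.cos_sub]; congr 1; ring
  rw [e2, e3]
  unfold G H
  ring

theorem P_bound (n : ℕ) (x : ℝ) (hx : x ∈ Icc (-1 : ℝ) 1) : |(P n).eval x| ≤ M x := by
  have h : cos (arccos x) = x := Real.cos_arccos hx.1 hx.2
  rw [← h, P_cos, abs_mul, abs_of_pos (M_pos (by rw [h]; exact abs_le.mpr hx))]
  have h1 := Real.abs_cos_le_one (n * arccos x - φ (arccos x))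
  have h2 := (M_pos (x := cos (arccos x)) (by rw [h]; exact abs_le.mpr hx)).le
  nlinarith

theorem φ_cont : Continuous φ := by
  unfold φ
  apply Real.continuous_arctan.comp
  apply Continuous.div
  · unfold H; fun_prop
  · unfold G; fun_prop
  · intro θ; exact (G_pos θ).ne'

theorem φ_zero : φ 0 = 0 := by simp [φ, H]

theorem φ_pi : φ π = 0 := by
  have h1 : sin (2 * π) = 0 := Real.sin_two_pi
  have h2 : sin (4 * π) = 0 := by
    have : (4 : ℝ) * π = ((4 : ℕ) : ℝ) * π := by norm_num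
    rw [this, Real.sin_nat_mul_pi]
  simp [φ, H, h1, h2]

/-- the alternation points -/
theorem exists_points (n : ℕ) (hn : 1 ≤ n) : ∃ t : ℕ → ℝ, (∀ i ≤ n, t i ∈ Icc 0 π) ∧
    (∀ i ≤ n, n * t i - φ (t i) = i * π) ∧ ∀ i j, i < j → j ≤ n → t i < t j := by
  let ψ : ℝ → ℝ := fun θ => n * θ - φ θ
  have hψ : Continuous ψ := (continuous_const.mul continuous_id).sub φ_cont
  have hψ0 : ψ 0 = 0 := by simp [ψ, φ_zero]
  have hψπ : ψ π = n * π := by simp [ψ, φ_pi]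
  have hpi := Real.pi_pos
  let S : ℕ → Set ℝ := fun i => {θ | θ ∈ Icc 0 π ∧ ψ θ = i * π}
  have hS : ∀ i, IsCompact (S i) := by
    intro i
    apply isCompact_Icc.inter_right (t := {θ | ψ θ = i * π})
    exact isClosed_eq hψ continuous_const
  have hne : ∀ i ≤ n, (S i).Nonempty := by
    intro i hi
    have h1 : (i : ℝ) * π ∈ Icc (ψ 0) (ψ π) := by
      rw [hψ0, hψπ]
      refine ⟨by positivity, ?_⟩
      have : (i : ℝ) ≤ n := by exact_mod_cast hi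
      nlinarith
    obtain ⟨θ, hθ, h2⟩ := intermediate_value_Icc hpi.le hψ.continuousOn h1
    exact ⟨θ, hθ, h2⟩
  have hg : ∀ i, ∃ θ, i ≤ n → IsGreatest (S i) θ := by
    intro i
    by_cases hi : i ≤ n
    · obtain ⟨θ, hθ⟩ := (hS i).exists_isGreatest (hne i hi)
      exact ⟨θ, fun _ => hθ⟩
    · exact ⟨0, fun h => absurd h hi⟩
  choose t ht using hg
  refine ⟨t, fun i hi => (ht i hi).1.1, fun i hi => (ht i hi).1.2, ?_⟩
  intro i j hij hj
  have hi : i ≤ n := by omega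
  have h1 := (ht i hi).1
  have h2 : (j : ℝ) * π ∈ Icc (ψ (t i)) (ψ π) := by
    rw [h1.2, hψπ]
    have a1 : (i : ℝ) ≤ j := by exact_mod_cast hij.le
    have a2 : (j : ℝ) ≤ n := by exact_mod_cast hj
    constructor <;> nlinarith
  obtain ⟨θ, hθ, h3⟩ := intermediate_value_Icc h1.1.2 hψ.continuousOn h2
  have h4 : θ ≤ t j := (ht j hj).2 ⟨⟨h1.1.1.trans hθ.1, hθ.2⟩, h3⟩
  have h5 : t i ≠ θ := by
    rintro h
    rw [← h, h1.2] at h3
    have : (i : ℝ) = j := mul_right_cancel₀ hpi.ne' h3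
    have : i = j := by exact_mod_cast this
    omega
  exact lt_of_lt_of_le (lt_of_le_of_ne hθ.1 h5) h4

theorem P_alt (n : ℕ) (hn : 1 ≤ n) : ∃ τ : Fin (n + 1) → ℝ, StrictAnti τ ∧
    (∀ i, τ i ∈ Icc (-1 : ℝ) 1) ∧ ∀ i, (P n).eval (τ i) = (-1) ^ (i : ℕ) * M (τ i) := by
  obtain ⟨t, h1, h2, h3⟩ := exists_points n hn
  refine ⟨fun i => cos (t i), ?_, fun i => ⟨Real.neg_one_le_cos _, Real.cos_le_one _⟩, ?_⟩
  · intro i j hij
    have hi : (i : ℕ) ≤ n := Nat.lt_succ_iff.mp i.2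
    have hj : (j : ℕ) ≤ n := Nat.lt_succ_iff.mp j.2
    exact Real.strictAntiOn_cos (h1 i hi) (h1 j hj) (h3 i j hij hj)
  · intro i
    have hi : (i : ℕ) ≤ n := Nat.lt_succ_iff.mp i.2
    show (P n).eval (cos (t i)) = _
    rw [P_cos, h2 i hi, Real.cos_nat_mul_pi, mul_comm]

theorem P_deg (n : ℕ) (hn : 4 ≤ n) : (P n).natDegree ≤ n := by
  unfold P
  have hT : ∀ m : ℤ, m.natAbs ≤ n → (Chebyshev.T ℝ m).natDegree ≤ n := by
    intro m hm
    rw [Chebyshev.natDegree_T]; exact hm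
  refine (natDegree_sub_le _ _).trans (max_le ((natDegree_add_le _ _).trans (max_le ?_ ?_)) ?_)
  · exact hT _ (by omega)
  · exact (natDegree_C_mul_le _ _).trans (hT _ (by omega))
  · exact (natDegree_C_mul_le _ _).trans (hT _ (by omega))

end

end Y219.SN
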