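import Pool.Agent.Y219.SN.A

/-! Degrees at most three. -/

open Polynomial Set Real

namespace Y219.SN

noncomputable section

/-- `p` is a combination of `T_0, …, T_n` with non-negative coefficients. -/
def NonnegExpansion (n : ℕ) (p : ℝ[X]) : Prop :=
  ∃ c : ℕ → ℝ, (∀ j, j ≤ n → 0 ≤ c j) ∧
    p = ∑ j ∈ Finset.range (n + 1), C (c j) * Chebyshev.T ℝ (j : ℤ)

theorem expansion_unique (n : ℕ) (c d : ℕ → ℝ)
    (h : ∑ j ∈ Finset.range (n + 1), C (c j) * Chebyshev.T ℝ (j : ℤ) =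
      ∑ j ∈ Finset.range (n + 1), C (d j) * Chebyshev.T ℝ (j : ℤ)) : ∀ j ≤ n, c j = d j := by
  have hli := (Chebyshev.chebyshevTsequence (R := ℝ)).linearIndependent
  rw [linearIndependent_iff'] at hli
  intro j hj
  have h1 := hli (Finset.range (n + 1)) (fun j => c j - d j) (by
    have h2 : ∀ i : ℕ, (c i - d i) • (Chebyshev.chebyshevTsequence (R := ℝ) i : ℝ[X]) =
        C (c i) * Chebyshev.T ℝ (i : ℤ) - C (d i) * Chebyshev.T ℝ (i : ℤ) := by
      intro i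
      rw [Polynomial.smul_eq_C_mul, C_sub, sub_mul]
      rfl
    rw [Finset.sum_congr rfl (fun i _ => h2 i), Finset.sum_sub_distrib, h, sub_self]) j
    (Finset.mem_range.mpr (by omega))
  have h3 : c j - d j = 0 := h1
  linarith

theorem P_not (n : ℕ) (hn : 4 ≤ n) : ¬ NonnegExpansion n (P n) := by
  rintro ⟨c, hc, h⟩
  let d : ℕ → ℝ := fun j => if j = n then 1 else if j = n - 2 then 1 / 10 else
    if j = n - 4 then -(1 / 1000) else 0
  have hd : P n = ∑ j ∈ Finset.range (n + 1), C (d j) * Chebyshev.T ℝ (j : ℤ) := by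
    have h1 : ∀ j ∈ Finset.range (n + 1), j ∉ ({n, n - 2, n - 4} : Finset ℕ) →
        C (d j) * Chebyshev.T ℝ (j : ℤ) = 0 := by
      intro j _ hj
      simp only [Finset.mem_insert, Finset.mem_singleton, not_or] at hj
      simp [d, hj.1, hj.2.1, hj.2.2]
    rw [← Finset.sum_subset (s₁ := {n, n - 2, n - 4}) ?_ h1]
    · rw [Finset.sum_insert, Finset.sum_insert, Finset.sum_singleton]
      · have a1 : d n = 1 := by simp [d]
        have a2 : d (n - 2) = 1 / 10 := by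
          simp only [d]
          rw [if_neg (by omega)]; simp
        have a3 : d (n - 4) = -(1 / 1000) := by
          simp only [d]
          rw [if_neg (by omega), if_neg (by omega)]; simp
        rw [a1, a2, a3]
        unfold P
        have b1 : ((n - 2 : ℕ) : ℤ) = (n : ℤ) - 2 := by omega
        have b2 : ((n - 4 : ℕ) : ℤ) = (n : ℤ) - 4 := by omega
        rw [b1, b2, C_neg, C_1]
        ring
      · simp only [Finset.mem_singleton]; omega
      · simp only [Finset.mem_insert, Finset.mem_singleton]; omega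
    · intro j hj
      simp only [Finset.mem_insert, Finset.mem_singleton] at hj
      rw [Finset.mem_range]; omega
  have h2 := expansion_unique n c d (h.symm.trans hd) (n - 4) (by omega)
  have h3 := hc (n - 4) (by omega)
  rw [h2] at h3
  have h4 : d (n - 4) = -(1 / 1000) := by
    simp only [d]
    rw [if_neg (by omega), if_neg (by omega)]; simp
  rw [h4] at h3
  norm_num at h3

/-- Admissible majorants. -/
structure IsMajorant (μ : ℝ → ℝ) : Prop where
  cont : ContinuousOn μ (Icc (-1) 1)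
  convex : ConvexOn ℝ (Icc (-1) 1) μ
  even : ∀ x ∈ Icc (-1 : ℝ) 1, μ (-x) = μ x
  nonneg : ∀ x ∈ Icc (-1 : ℝ) 1, 0 ≤ μ x

/-- `p` is the `n`-th snake polynomial of `μ`. -/
structure IsSnake (μ : ℝ → ℝ) (n : ℕ) (p : ℝ[X]) : Prop where
  degree : p.natDegree ≤ n
  bound : ∀ x ∈ Icc (-1 : ℝ) 1, |p.eval x| ≤ μ x
  alternation : ∃ τ : Fin (n + 1) → ℝ, StrictAnti τ ∧ (∀ i, τ i ∈ Icc (-1 : ℝ) 1) ∧
    ∀ i, p.eval (τ i) = (-1) ^ (i : ℕ) * μ (τ i)

theorem IsMajorant.mono {μ : ℝ → ℝ} (h : IsMajorant μ) {s t : ℝ} (hs : 0 ≤ s) (hst : s ≤ t)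
    (ht : t ≤ 1) : μ s ≤ μ t := by
  rcases eq_or_lt_of_le (hs.trans hst) with h0 | h0
  · have : s = t := by linarith
    rw [this]
  have ht' : t ∈ Icc (-1 : ℝ) 1 := ⟨by linarith, ht⟩
  have hnt : -t ∈ Icc (-1 : ℝ) 1 := ⟨by linarith, by linarith⟩
  have n1 : 0 ≤ (t + s) / (2 * t) := by positivity
  have n2 : 0 ≤ (t - s) / (2 * t) := div_nonneg (by linarith) (by positivity)
  have n3 : (t + s) / (2 * t) + (t - s) / (2 * t) = 1 := by field_simp; ring
  have hc := h.convex.2 ht' hnt n1 n2 n3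
  have e : ((t + s) / (2 * t)) • t + ((t - s) / (2 * t)) • (-t) = s := by
    simp only [smul_eq_mul]; field_simp; ring
  rw [e, h.even t ht'] at hc
  have e2 : ((t + s) / (2 * t)) • μ t + ((t - s) / (2 * t)) • μ t = μ t := by
    rw [← add_smul]
    rw [n3, one_smul]
  rwa [e2] at hc

theorem M_majorant : IsMajorant M where
  cont := M_cont.continuousOn
  convex := M_convex
  even := fun x _ => M_even x
  nonneg := fun _ _ => Real.sqrt_nonneg _

theorem P_snake (n : ℕ) (hn : 4 ≤ n) : IsSnake M n (P n) where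
  degree := P_deg n hn
  bound := P_bound n
  alternation := P_alt n (by omega)

/-! ### small degrees -/

theorem small_zero {μ : ℝ → ℝ} (hμ : IsMajorant μ) {p : ℝ[X]} (h : IsSnake μ 0 p) :
    NonnegExpansion 0 p := by
  obtain ⟨τ, -, h1, h2⟩ := h.alternation
  have hp : p = C (p.coeff 0) := eq_C_of_natDegree_le_zero h.degree
  refine ⟨fun _ => p.coeff 0, fun _ _ => ?_, ?_⟩
  · have h3 := h2 0
    rw [hp, eval_C] at h3
    have h4 := hμ.nonneg _ (h1 0)
    simp at h3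
    rw [h3]; exact h4
  · rw [Finset.sum_range_one]
    simp only [Nat.cast_zero, Chebyshev.T_zero, mul_one]
    exact hp

theorem eval_three (p : ℝ[X]) (h : p.natDegree ≤ 3) (x : ℝ) :
    p.eval x = p.coeff 0 + p.coeff 1 * x + p.coeff 2 * x ^ 2 + p.coeff 3 * x ^ 3 := by
  rw [Polynomial.eval_eq_sum_range' (n := 4) (by omega)]
  simp [Finset.sum_range_succ]

theorem T_three_eval (x : ℝ) : (Chebyshev.T ℝ 3).eval x = 4 * x ^ 3 - 3 * x := by
  have h := Chebyshev.T_add_two ℝ 1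
  have e : (1 : ℤ) + 2 = 3 := by norm_num
  rw [e] at h
  rw [h]
  have e2 : (1 : ℤ) + 1 = 2 := by norm_num
  rw [e2, Chebyshev.T_two, Chebyshev.T_one]
  simp
  ring

theorem exp_three (p : ℝ[X]) (h : p.natDegree ≤ 3) (n : ℕ) (hn : n ≤ 3) (c : ℕ → ℝ)
    (hc : ∀ j, j ≤ n → 0 ≤ c j) (h0 : c 0 = p.coeff 0 + p.coeff 2 / 2)
    (h1 : 1 ≤ n → c 1 = p.coeff 1 + 3 / 4 * p.coeff 3) (h2 : 2 ≤ n → c 2 = p.coeff 2 / 2)
    (h3 : 3 ≤ n → c 3 = p.coeff 3 / 4) (hd : p.natDegree ≤ n) : NonnegExpansion n p := by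
  refine ⟨c, hc, ?_⟩
  apply Polynomial.funext
  intro x
  rw [eval_three p h x, Polynomial.eval_finsetSum]
  have hcoef : ∀ k, n < k → p.coeff k = 0 := fun k hk =>
    coeff_eq_zero_of_natDegree_lt (lt_of_le_of_lt hd hk)
  interval_cases n
  · have k1 := hcoef 1 (by norm_num)
    have k2 := hcoef 2 (by norm_num)
    have k3 := hcoef 3 (by norm_num)
    simp [h0, k1, k2, k3]
  · have k2 := hcoef 2 (by norm_num)
    have k3 := hcoef 3 (by norm_num)
    simp [Finset.sum_range_succ, h0, h1, k2, k3]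
  · have k3 := hcoef 3 (by norm_num)
    simp [Finset.sum_range_succ, h0, h1, h2, k3, Chebyshev.T_two]
    ring
  · simp only [Finset.sum_range_succ, Finset.sum_range_zero, zero_add, eval_mul, eval_C,
      Nat.cast_zero, Nat.cast_one, Nat.cast_ofNat, Chebyshev.T_zero, Chebyshev.T_one,
      Chebyshev.T_two, T_three_eval, eval_one, eval_X, eval_sub, eval_pow, h0, h1 (by norm_num),
      h2 (by norm_num), h3 (by norm_num)]
    have : (eval x (2 : ℝ[X])) = 2 := by simp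
    rw [this]
    ring

theorem small_one {μ : ℝ → ℝ} (hμ : IsMajorant μ) {p : ℝ[X]} (h : IsSnake μ 1 p) :
    NonnegExpansion 1 p := by
  obtain ⟨τ, ha, h1, h2⟩ := h.alternation
  have h01 : τ 1 < τ 0 := ha (by decide)
  have hc2 : p.coeff 2 = 0 := coeff_eq_zero_of_natDegree_lt (lt_of_le_of_lt h.degree (by norm_num))
  have hc3 : p.coeff 3 = 0 := coeff_eq_zero_of_natDegree_lt (lt_of_le_of_lt h.degree (by norm_num))
  have hd3 : p.natDegree ≤ 3 := h.degree.trans (by norm_num)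
  have hev : ∀ x, p.eval x = p.coeff 0 + p.coeff 1 * x := by
    intro x; rw [eval_three p hd3 x, hc2, hc3]; ring
  have hneg : ∀ i, |p.eval (-(τ i))| ≤ μ (τ i) := by
    intro i
    have h3 := h.bound (-(τ i)) ⟨by linarith [(h1 i).2], by linarith [(h1 i).1]⟩
    rwa [hμ.even _ (h1 i)] at h3
  have e0 := h2 0
  have e1 := h2 1
  have m0 := hμ.nonneg _ (h1 0)
  have m1 := hμ.nonneg _ (h1 1)
  have b0 := abs_le.mp (hneg 0)
  have b1 := abs_le.mp (hneg 1)
  simp only [Fin.val_zero, Fin.val_one, pow_zero, pow_one, one_mul, hev] at e0 e1 b0 b1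
  have a0 : p.coeff 0 = 0 := by
    apply le_antisymm <;> linarith
  have a1 : 0 ≤ p.coeff 1 := by
    by_contra hlt
    push Not at hlt
    rw [a0] at e0 e1
    nlinarith
  refine exp_three p hd3 1 (by norm_num) (fun j => if j = 0 then 0 else p.coeff 1) ?_ ?_ ?_ ?_ ?_
    h.degree
  · intro j _
    by_cases hj : j = 0
    · simp [hj]
    · simp [hj, a1]
  · simp [a0, hc2]
  · intro _; simp [hc3]
  · intro h; omega
  · intro h; omega

/-! Elementary inequalities. -/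

theorem even_part {a c x0 x1 x2 x3 : ℝ} (h01 : x1 < x0) (h12 : x2 < x1) (h23 : x3 < x2)
    (r0 : 0 ≤ a + c * x0 ^ 2) (r1 : a + c * x1 ^ 2 ≤ 0) (r2 : 0 ≤ a + c * x2 ^ 2)
    (r3 : a + c * x3 ^ 2 ≤ 0) : c = 0 := by
  rcases lt_trichotomy c 0 with hlt | heq | hgt
  · exfalso
    have k1 : x0 ^ 2 ≤ x1 ^ 2 := by
      have : c * (x0 ^ 2 - x1 ^ 2) ≥ 0 := by linarith
      by_contra hk; push Not at hk
      linarith [mul_neg_of_neg_of_pos hlt (sub_pos.mpr hk)]
    have k2 : x2 ^ 2 ≤ x1 ^ 2 := by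
      have : c * (x2 ^ 2 - x1 ^ 2) ≥ 0 := by linarith
      by_contra hk; push Not at hk
      linarith [mul_neg_of_neg_of_pos hlt (sub_pos.mpr hk)]
    have k3 : x1 < 0 := by
      by_contra hk; push Not at hk
      have : x1 ^ 2 < x0 ^ 2 := by nlinarith only [hk, h01]
      linarith
    have : x1 ^ 2 < x2 ^ 2 := by nlinarith only [k3, h12]
    linarith
  · exact heq
  · exfalso
    have k1 : x1 ^ 2 ≤ x2 ^ 2 := by
      have : c * (x2 ^ 2 - x1 ^ 2) ≥ 0 := by linarith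
      by_contra hk; push Not at hk
      linarith [mul_neg_of_pos_of_neg hgt (sub_neg.mpr hk)]
    have k2 : x3 ^ 2 ≤ x2 ^ 2 := by
      have : c * (x2 ^ 2 - x3 ^ 2) ≥ 0 := by linarith
      by_contra hk; push Not at hk
      linarith [mul_neg_of_pos_of_neg hgt (sub_neg.mpr hk)]
    have k3 : 0 < x2 := by
      by_contra hk; push Not at hk
      have : x2 ^ 2 < x3 ^ 2 := by nlinarith only [hk, h23]
      linarith
    have : x2 ^ 2 < x1 ^ 2 := by nlinarith only [k3, h12]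
    linarith

theorem sgn {x y : ℝ} (hx : 0 < x) (h : 0 ≤ x * y) : 0 ≤ y := by
  by_contra hh; push Not at hh; linarith [mul_neg_of_pos_of_neg hx hh]

theorem sgn' {x y : ℝ} (hx : x < 0) (h : x * y ≤ 0) : 0 ≤ y := by
  by_contra hh; push Not at hh; linarith [mul_pos_of_neg_of_neg hx hh]

theorem lead_nonneg {a c x0 x1 x2 x3 : ℝ} (h01 : x1 < x0) (h12 : x2 < x1) (h23 : x3 < x2)
    (q0 : 0 ≤ x0 * (a + c * x0 ^ 2)) (q1 : x1 * (a + c * x1 ^ 2) ≤ 0)
    (q2 : 0 ≤ x2 * (a + c * x2 ^ 2)) (q3 : x3 * (a + c * x3 ^ 2) ≤ 0) : 0 ≤ c := by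
  by_contra hlt
  push Not at hlt
  have k1 : x1 ≤ 0 := by
    by_contra hk
    push Not at hk
    have k2 : 0 ≤ -(a + c * x1 ^ 2) := sgn hk (by linarith)
    have k3 : 0 ≤ a + c * x0 ^ 2 := sgn (hk.trans h01) q0
    have k4 : x1 ^ 2 < x0 ^ 2 := by nlinarith only [hk, h01]
    linarith [mul_neg_of_neg_of_pos hlt (sub_pos.mpr k4)]
  have k5 : x2 < 0 := by linarith
  have k6 : 0 ≤ -(a + c * x2 ^ 2) := sgn' k5 (by linarith)
  have k8 : x3 < 0 := by linarith
  have k7 : 0 ≤ a + c * x3 ^ 2 := sgn' k8 q3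
  have k4 : x2 ^ 2 < x3 ^ 2 := by nlinarith only [k5, h23]
  linarith [mul_neg_of_neg_of_pos hlt (sub_pos.mpr k4)]

theorem first_pos {a c x0 x1 x2 : ℝ} (hc : 0 ≤ c) (h01 : x1 < x0) (h12 : x2 < x1)
    (q1 : x1 * (a + c * x1 ^ 2) ≤ 0) (q2 : 0 ≤ x2 * (a + c * x2 ^ 2))
    (hlt : a + 3 / 4 * c < 0) : 0 < x0 := by
  by_contra hk
  push Not at hk
  have k1 : x1 < 0 := by linarith
  have k2 : 0 ≤ a + c * x1 ^ 2 := sgn' k1 q1
  have k3 : x2 < 0 := by linarith
  have k4 : 0 ≤ -(a + c * x2 ^ 2) := sgn' k3 (by linarith)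
  have k5 : x1 ^ 2 < x2 ^ 2 := by nlinarith only [k1, h12]
  rcases eq_or_lt_of_le hc with hz | hz
  · rw [← hz] at k2 hlt
    linarith
  · linarith [mul_pos hz (sub_pos.mpr k5)]

theorem half_le {a c x0 : ℝ} (hc : 0 ≤ c) (h0 : 0 < x0) (k1 : 0 ≤ a + c * x0 ^ 2)
    (hlt : a + 3 / 4 * c < 0) : 1 / 2 ≤ x0 := by
  by_contra hh
  push Not at hh
  have : x0 ^ 2 < 3 / 4 := by nlinarith only [h0, hh]
  linarith [mul_nonneg hc (sub_pos.mpr this).le]

theorem value_le {a c x0 : ℝ} (hc : 0 ≤ c) (h0 : 0 < x0) (h1 : x0 ≤ 1)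
    (k1 : 0 ≤ a + c * x0 ^ 2) : x0 * (a + c * x0 ^ 2) ≤ a + c := by
  have h2 : x0 ^ 2 ≤ 1 := by nlinarith only [h0, h1]
  have k9 : a + c * x0 ^ 2 ≤ a + c := by linarith [mul_nonneg hc (sub_nonneg.mpr h2)]
  have k10 : x0 * (a + c * x0 ^ 2) ≤ 1 * (a + c * x0 ^ 2) := mul_le_mul_of_nonneg_right h1 k1
  linarith

theorem odd_two {c x0 x1 x2 : ℝ} (h01 : x1 < x0) (h12 : x2 < x1) (r0 : 0 ≤ c * x0)
    (r1 : c * x1 ≤ 0) (r2 : 0 ≤ c * x2) : c = 0 := by
  rcases lt_trichotomy c 0 with hlt | heq | hgt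
  · exfalso
    have k1 : 0 ≤ -x0 := sgn (x := -c) (by linarith) (by linarith)
    have k2 : 0 ≤ x1 := sgn (x := -c) (by linarith) (by linarith)
    linarith
  · exact heq
  · exfalso
    have k1 : 0 ≤ -x1 := sgn hgt (by linarith)
    have k2 : 0 ≤ x2 := sgn hgt r2
    linarith

theorem lead_two {a c x0 x1 x2 : ℝ} (h01 : x1 < x0) (h12 : x2 < x1) (r0 : 0 ≤ a + c * x0 ^ 2)
    (r1 : a + c * x1 ^ 2 ≤ 0) (r2 : 0 ≤ a + c * x2 ^ 2) : 0 ≤ c := by
  by_contra hlt
  push Not at hlt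
  have k1 : x0 ^ 2 ≤ x1 ^ 2 := by
    by_contra hk; push Not at hk
    linarith [mul_neg_of_neg_of_pos hlt (sub_pos.mpr hk)]
  have k2 : x2 ^ 2 ≤ x1 ^ 2 := by
    by_contra hk; push Not at hk
    linarith [mul_neg_of_neg_of_pos hlt (sub_pos.mpr hk)]
  rcases le_total 0 x1 with hh | hh
  · have : x1 ^ 2 < x0 ^ 2 := by nlinarith only [hh, h01]
    linarith
  · have : x1 ^ 2 < x2 ^ 2 := by nlinarith only [hh, h12]
    linarith

/-- degree two -/
theorem small_two {μ : ℝ → ℝ} (hμ : IsMajorant μ) {p : ℝ[X]} (h : IsSnake μ 2 p) :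
    NonnegExpansion 2 p := by
  obtain ⟨τ, ha, h1, h2⟩ := h.alternation
  have h01 : τ 1 < τ 0 := ha (by decide)
  have h12 : τ 2 < τ 1 := ha (by decide)
  have hc3 : p.coeff 3 = 0 := coeff_eq_zero_of_natDegree_lt (lt_of_le_of_lt h.degree (by norm_num))
  have hd3 : p.natDegree ≤ 3 := h.degree.trans (by norm_num)
  have hev : ∀ x, p.eval x = p.coeff 0 + p.coeff 1 * x + p.coeff 2 * x ^ 2 := by
    intro x; rw [eval_three p hd3 x, hc3]; ring
  have hneg : ∀ i, |p.eval (-(τ i))| ≤ μ (τ i) := by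
    intro i
    have h3 := h.bound (-(τ i)) ⟨by linarith [(h1 i).2], by linarith [(h1 i).1]⟩
    rwa [hμ.even _ (h1 i)] at h3
  have e0 := h2 0
  have e1 := h2 1
  have e2 := h2 2
  have m0 := hμ.nonneg _ (h1 0)
  have m1 := hμ.nonneg _ (h1 1)
  have m2 := hμ.nonneg _ (h1 2)
  have b0 := abs_le.mp (hneg 0)
  have b1 := abs_le.mp (hneg 1)
  have b2 := abs_le.mp (hneg 2)
  have v2 : ((2 : Fin 3) : ℕ) = 2 := rfl
  simp only [Fin.val_zero, Fin.val_one, v2, pow_zero, pow_one, one_mul, hev] at e0 e1 e2 b0 b1 b2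
  have s2 : ((-1 : ℝ)) ^ 2 = 1 := by norm_num
  rw [s2] at e2
  have n0 : (-(τ 0)) ^ 2 = τ 0 ^ 2 := neg_sq _
  have n1 : (-(τ 1)) ^ 2 = τ 1 ^ 2 := neg_sq _
  have n2 : (-(τ 2)) ^ 2 = τ 2 ^ 2 := neg_sq _
  rw [n0] at b0
  rw [n1] at b1
  rw [n2] at b2
  have a1 : p.coeff 1 = 0 := odd_two h01 h12 (by linarith) (by linarith) (by linarith)
  rw [a1] at e0 e1 e2
  have a2 : 0 ≤ p.coeff 2 := lead_two (a := p.coeff 0) h01 h12 (by linarith) (by linarith)
    (by linarith)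
  have a0 : 0 ≤ p.coeff 0 + p.coeff 2 / 2 := by
    by_contra hlt
    push Not at hlt
    have k0 : |τ 0| ≤ 1 := abs_le.mpr (h1 0)
    have k1 : μ 0 ≤ μ (τ 0) := by
      have h3 := hμ.mono (le_refl 0) (abs_nonneg (τ 0)) k0
      rcases abs_choice (τ 0) with hh | hh
      · rwa [hh] at h3
      · rw [hh, hμ.even _ (h1 0)] at h3; exact h3
    have k2 := h.bound 0 ⟨by norm_num, by norm_num⟩
    rw [hev] at k2
    have k3 := abs_le.mp k2
    have k4 : τ 0 ^ 2 ≤ 1 := by rw [sq_le_one_iff_abs_le_one]; exact k0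
    have k5 : p.coeff 2 * τ 0 ^ 2 ≤ p.coeff 2 := by
      linarith [mul_nonneg a2 (sub_nonneg.mpr k4)]
    linarith
  refine exp_three p hd3 2 (by norm_num) (fun j => if j = 0 then p.coeff 0 + p.coeff 2 / 2 else
    if j = 1 then 0 else p.coeff 2 / 2) ?_ ?_ ?_ ?_ ?_ h.degree
  · intro j _
    by_cases hj : j = 0
    · simp only [hj, if_true]; exact a0
    · by_cases hj1 : j = 1
      · simp [hj1]
      · simp only [hj, hj1, if_false]; positivity
  · simp
  · intro _; simp [hc3, a1]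
  · intro _; simp
  · intro h; omega

/-- degree three -/
theorem small_three {μ : ℝ → ℝ} (hμ : IsMajorant μ) {p : ℝ[X]} (h : IsSnake μ 3 p) :
    NonnegExpansion 3 p := by
  obtain ⟨τ, ha, h1, h2⟩ := h.alternation
  have h01 : τ 1 < τ 0 := ha (by decide)
  have h12 : τ 2 < τ 1 := ha (by decide)
  have h23 : τ 3 < τ 2 := ha (by decide)
  have hev := eval_three p h.degree
  have hneg : ∀ i, |p.eval (-(τ i))| ≤ μ (τ i) := by
    intro i
    have h3 := h.bound (-(τ i)) ⟨by linarith [(h1 i).2], by linarith [(h1 i).1]⟩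
    rwa [hμ.even _ (h1 i)] at h3
  have e0 := h2 0
  have e1 := h2 1
  have e2 := h2 2
  have e3 := h2 3
  have m0 := hμ.nonneg _ (h1 0)
  have m1 := hμ.nonneg _ (h1 1)
  have m2 := hμ.nonneg _ (h1 2)
  have m3 := hμ.nonneg _ (h1 3)
  have b0 := abs_le.mp (hneg 0)
  have b1 := abs_le.mp (hneg 1)
  have b2 := abs_le.mp (hneg 2)
  have b3 := abs_le.mp (hneg 3)
  have v2 : ((2 : Fin 4) : ℕ) = 2 := rfl
  have v3 : ((3 : Fin 4) : ℕ) = 3 := rfl
  have s2 : ((-1 : ℝ)) ^ 2 = 1 := by norm_num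
  have s3 : ((-1 : ℝ)) ^ 3 = -1 := by norm_num
  simp only [Fin.val_zero, Fin.val_one, v2, v3, pow_zero, pow_one, one_mul, hev] at e0 e1 e2 e3 b0 b1 b2 b3
  rw [s2] at e2
  rw [s3] at e3
  have n : ∀ x : ℝ, p.coeff 0 + p.coeff 1 * -x + p.coeff 2 * (-x) ^ 2 + p.coeff 3 * (-x) ^ 3 =
      p.coeff 0 - p.coeff 1 * x + p.coeff 2 * x ^ 2 - p.coeff 3 * x ^ 3 := by
    intro x; ring
  rw [n] at b0 b1 b2 b3
  have a2 : p.coeff 2 = 0 := even_part (a := p.coeff 0) h01 h12 h23 (by linarith) (by linarith)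
    (by linarith) (by linarith)
  have a0 : p.coeff 0 = 0 := by
    rw [a2] at e0 e1 b0 b1
    apply le_antisymm <;> linarith
  rw [a0, a2] at e0 e1 e2 e3
  have fac : ∀ x : ℝ, x * (p.coeff 1 + p.coeff 3 * x ^ 2) =
      0 + p.coeff 1 * x + 0 * x ^ 2 + p.coeff 3 * x ^ 3 := by
    intro x; ring
  have q0 : 0 ≤ τ 0 * (p.coeff 1 + p.coeff 3 * τ 0 ^ 2) := by rw [fac, e0]; exact m0
  have q1 : τ 1 * (p.coeff 1 + p.coeff 3 * τ 1 ^ 2) ≤ 0 := by rw [fac, e1]; linarith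
  have q2 : 0 ≤ τ 2 * (p.coeff 1 + p.coeff 3 * τ 2 ^ 2) := by rw [fac, e2]; linarith
  have q3 : τ 3 * (p.coeff 1 + p.coeff 3 * τ 3 ^ 2) ≤ 0 := by rw [fac, e3]; linarith
  have a3 : 0 ≤ p.coeff 3 := lead_nonneg h01 h12 h23 q0 q1 q2 q3
  have a1 : 0 ≤ p.coeff 1 + 3 / 4 * p.coeff 3 := by
    by_contra hlt
    push Not at hlt
    have k0 : 0 < τ 0 := first_pos a3 h01 h12 q1 q2 hlt
    have k1 : 0 ≤ p.coeff 1 + p.coeff 3 * τ 0 ^ 2 := sgn k0 q0
    have k2 : τ 0 ≤ 1 := (h1 0).2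
    have k4 : 1 / 2 ≤ τ 0 := half_le a3 k0 k1 hlt
    have k5 := hμ.mono (by norm_num : (0 : ℝ) ≤ 1 / 2) k4 k2
    have k6 := h.bound (1 / 2) ⟨by norm_num, by norm_num⟩
    rw [hev, a0, a2] at k6
    have k7 := (abs_le.mp k6).1
    have k8 := value_le a3 k0 k2 k1
    have k9 : μ (τ 0) = τ 0 * (p.coeff 1 + p.coeff 3 * τ 0 ^ 2) := by rw [fac]; linarith
    have k10 : (0 : ℝ) + p.coeff 1 * (1 / 2) + 0 * (1 / 2) ^ 2 + p.coeff 3 * (1 / 2) ^ 3 =
      p.coeff 1 / 2 + p.coeff 3 / 8 := by ring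
    rw [k10] at k7
    linarith
  refine exp_three p h.degree 3 (by norm_num) (fun j => if j = 1 then p.coeff 1 + 3 / 4 * p.coeff 3
    else if j = 3 then p.coeff 3 / 4 else 0) ?_ ?_ ?_ ?_ ?_ h.degree
  · intro j _
    by_cases hj : j = 1
    · simp only [hj, if_true]; exact a1
    · by_cases hj1 : j = 3
      · simp only [hj1]
        norm_num
        exact div_nonneg a3 (by norm_num)
      · simp [hj, hj1]
  · simp [a0, a2]
  · intro _; simp
  · intro _; simp [a2]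
  · intro _; simp

/-- **Exact threshold.** -/
theorem threshold (n : ℕ) : (∀ μ, IsMajorant μ → ∀ p, IsSnake μ n p → NonnegExpansion n p) ↔
    n ≤ 3 := by
  constructor
  · intro h
    by_contra hn
    push Not at hn
    exact P_not n hn (h M M_majorant (P n) (P_snake n hn))
  · intro hn μ hμ p hp
    interval_cases n
    · exact small_zero hμ hp
    · exact small_one hμ hp
    · exact small_two hμ hp
    · exact small_three hμ hp

end

end Y219.SN
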